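import Pool.Agent.PST.StmtsK1

set_option autoImplicit false

namespace Pool.Agent.PST.H27

theorem adx : AdxStmt := by
  classical
  intro ℓ _ F V E _ _ _ _ _ _ φ S q hV hE hS hq hqS
  haveI : Fintype E := Fintype.ofFinite E
  let P : V →* V := ∏ g : E, ((φ g : V ≃* V) : V →* V)
  have hP : ∀ v, P v = ∏ g : E, φ g v := fun v => by
    simp only [P, MonoidHom.finsetProd_apply]
    rfl
  have hPi : ∀ h v, P (φ h v) = P v := by
    intro h v
    rw [hP, hP]
    refine Fintype.prod_equiv (Equiv.mulRight h) _ _ fun g => ?_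
    simp only [Equiv.coe_mulRight, map_mul, MulAut.mul_apply]
  have hPs : ∀ v, (∀ g, φ g v = v) → P v = v ^ Nat.card E := by
    intro v hv
    rw [hP]
    simp [hv, Nat.card_eq_fintype_card]
  have hqE : q ^ Nat.card E ∉ S := by
    intro hc
    obtain ⟨k, hk⟩ := IsPGroup.iff_orderOf.1 hV q
    have hco : (Nat.card E).Coprime (orderOf q) := by
      rw [hk]
      exact ((Nat.Prime.coprime_iff_not_dvd (Fact.out : ℓ.Prime)).2 hE).symm.pow_right k
    obtain ⟨m, hm⟩ := exists_pow_eq_self_of_coprime hco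
    exact hqS (hm ▸ S.pow_mem hc m)
  let H : Subgroup V := S.comap P
  have hqH : q ∉ H := fun hc => hqE (by
    have : P q ∈ S := hc
    rwa [hPs q hq] at this)
  have hSH : S ≤ H := fun s hs => by
    change P s ∈ S
    rw [hPs s fun g => hS g s hs]
    exact S.pow_mem hs _
  have hfH : ∀ g v, φ g v * v⁻¹ ∈ H := fun g v => by
    change P (φ g v * v⁻¹) ∈ S
    rw [map_mul, hPi, map_inv, mul_inv_cancel]
    exact S.one_mem
  obtain ⟨N, hN⟩ := IsPGroup.iff_card.1 hV
  obtain ⟨n, hn⟩ := IsPGroup.iff_card.1 (hV.to_subgroup H)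
  have hlt : n < N := by
    by_contra hcon
    push_neg at hcon
    have h1 : Nat.card V ≤ Nat.card H := by
      rw [hN, hn]
      exact Nat.pow_le_pow_right (Fact.out : ℓ.Prime).pos hcon
    have h2 : H = ⊤ := Subgroup.eq_top_of_le_card H h1
    exact hqH (h2 ▸ Subgroup.mem_top q)
  obtain ⟨K, hK, hHK⟩ := Sylow.exists_subgroup_card_pow_prime_le (G := V) (p := ℓ) (n := n)
    (m := N - 1) (by rw [hN]; exact pow_dvd_pow ℓ (by omega)) H hn (by omega)
  have hcard : Nat.card (V ⧸ K) = ℓ := by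
    have h1 := Subgroup.card_eq_card_quotient_mul_card_subgroup K
    rw [hN, hK] at h1
    have h2 : ℓ ^ N = ℓ * ℓ ^ (N - 1) := by
      rw [← pow_succ']
      congr 1
      omega
    rw [h2] at h1
    exact (Nat.eq_of_mul_eq_mul_right (pow_pos (Fact.out : ℓ.Prime).pos _) h1).symm
  have hcardZ : Nat.card (Multiplicative (ZMod ℓ)) = ℓ := by
    rw [Nat.card_congr Multiplicative.toAdd, Nat.card_zmod]
  let f : V ⧸ K ≃* Multiplicative (ZMod ℓ) := mulEquivOfPrimeCardEq hcard hcardZ
  let e : V → F := fun v => ZMod.castHom (dvd_refl ℓ) F (Multiplicative.toAdd (f (QuotientGroup.mk' K v)))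
  have he : ∀ u v, e (u * v) = e u + e v := fun u v => by
    simp only [e, map_mul, toAdd_mul, map_add]
  have he0 : ∀ v ∈ K, e v = 0 := fun v hv => by
    have : QuotientGroup.mk' K v = 1 := (QuotientGroup.eq_one_iff v).2 hv
    simp only [e, this, map_one, toAdd_one, map_zero]
  refine ⟨e, ⟨he, fun g v => ?_⟩, fun s hs => he0 s (hHK (hSH hs)), ?_⟩
  · have h1 := he (φ g v * v⁻¹) v
    rw [he0 _ (hHK (hfH g v)), zero_add, inv_mul_cancel_right] at h1
    exact h1
  · have hKt : K ≠ ⊤ := by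
      intro hc
      have h1 : Nat.card K = Nat.card V := by rw [hc]; exact Subgroup.card_top
      rw [hN, hK] at h1
      have h2 := Nat.pow_right_injective (Fact.out : ℓ.Prime).two_le h1
      omega
    obtain ⟨v, -, hv⟩ := SetLike.exists_of_lt (lt_top_iff_ne_top.2 hKt)
    refine ⟨v, fun hc => hv ?_⟩
    have h1 : Multiplicative.toAdd (f (QuotientGroup.mk' K v)) = 0 :=
      ZMod.castHom_injective F (by rw [map_zero]; exact hc)
    have h2 : f (QuotientGroup.mk' K v) = 1 := h1
    have h3 : QuotientGroup.mk' K v = 1 := by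
      rw [← map_one f] at h2
      exact f.injective h2
    exact (QuotientGroup.eq_one_iff v).1 h3

end Pool.Agent.PST.H27
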