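import Pool.Agent.PST.StmtsDR

set_option autoImplicit false

namespace Pool.Agent.PST.H27

theorem egx (egc : EgcStmt) (spt : SptStmt) (dul : DulStmt) (avx : AvxStmt) (tin : TinStmt) :
    EgxStmt := by
  classical
  intro ℓ _ F V E _ _ _ _ _ _ _ φ W Q hE hW hQ hl hc hVQ
  obtain ⟨r, la, χ, hadd, hker, hwt, hchm, hch1, hli, hspan⟩ := egc ℓ F V E φ W hE hW hc
  obtain ⟨xx', hs', hx'⟩ := dul F V W Q r la hadd hker hli hVQ
  obtain ⟨xx, hs, h0, hx, he⟩ := avx ℓ F V E φ Q r la χ xx' hE hQ hadd hwt hchm hch1 hs' hx'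
  obtain ⟨t, ht0, htj⟩ := tin F r
  refine ⟨r, la, χ, xx, t, ⟨hadd, fun v => ⟨fun hv l => hker l v hv, fun h => ?_⟩, hwt, hchm, hch1,
    hs, h0, hx, he, fun μ hμ hμW v => ?_, ht0, htj⟩⟩
  · by_contra hv
    obtain ⟨μ, h1, h2, h3⟩ := spt ℓ F V W hl v hv
    obtain ⟨a, ha⟩ := hspan μ h1 h2
    refine h3 ?_
    rw [ha v]
    exact Finset.sum_eq_zero fun l _ => by rw [h l, mul_zero]
  · obtain ⟨a, ha⟩ := hspan μ hμ hμW
    rw [ha v]
    refine Finset.sum_congr rfl fun l _ => ?_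
    congr 1
    calc a l = ∑ n, a n * (if l = n then 1 else 0) := by
          simp [Finset.sum_ite_eq]
      _ = ∑ n, a n * ∑ u, xx l u * la n u := by
          refine Finset.sum_congr rfl fun n _ => ?_
          rw [hx l n]
      _ = ∑ u, xx l u * μ u := by
          simp only [ha, Finset.mul_sum]
          rw [Finset.sum_comm]
          refine Finset.sum_congr rfl fun u _ => Finset.sum_congr rfl fun n _ => ?_
          ring

end Pool.Agent.PST.H27
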