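import Pool.Agent.PST.StmtsGS

set_option autoImplicit false

namespace Pool.Agent.PST.H27

open Pool.Agent.PSS

theorem msu : MsuStmt := by
  intro V _ _ E hV hc
  obtain ⟨v₀, hv₀⟩ := hV
  let S : Set (Subgroup V) := {W | W ≠ ⊥ ∧ ∀ a ∈ E, ∀ u ∈ W, a u ∈ W}
  have hS : S.Nonempty := by
    refine ⟨⊤, fun h => hv₀ ?_, fun a _ u _ => Subgroup.mem_top _⟩
    have h1 : v₀ ∈ (⊥ : Subgroup V) := h ▸ Subgroup.mem_top v₀
    exact Subgroup.mem_bot.1 h1
  obtain ⟨W, hW, hmin⟩ := (wellFounded_lt (α := Subgroup V)).has_min S hS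
  refine ⟨W, ⟨inf_bot_eq W, sup_bot_eq W, hW.1, hW.2, fun a _ x hx => ?_, ?_⟩⟩
  · rw [Subgroup.mem_bot.1 hx, map_one]
    exact Subgroup.one_mem _
  · intro a ha u hu hu1 hau w hw
    let C : Subgroup V :=
      { carrier := {v | v ∈ W ∧ a v = v}
        mul_mem' := fun {x y} hx hy => ⟨W.mul_mem hx.1 hy.1, by rw [map_mul, hx.2, hy.2]⟩
        one_mem' := ⟨W.one_mem, map_one a⟩
        inv_mem' := fun {x} hx => ⟨W.inv_mem hx.1, by rw [map_inv, hx.2]⟩ }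
    have hCW : C ≤ W := fun x hx => hx.1
    have hCS : C ∈ S := by
      refine ⟨fun h => hu1 ?_, fun b hb v hv => ⟨hW.2 b hb v hv.1, ?_⟩⟩
      · have h1 : u ∈ C := ⟨hu, hau⟩
        rw [h] at h1
        exact Subgroup.mem_bot.1 h1
      · rw [hc a ha b hb v, hv.2]
    have h1 : C = W := by
      by_contra hne
      exact hmin C hCS (lt_of_le_of_ne hCW hne)
    have h2 : w ∈ C := h1 ▸ hw
    exact h2.2

end Pool.Agent.PST.H27
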