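import Pool.Agent.PST.StmtsK3

set_option autoImplicit false

/-!
# Squad PST, row OBB

The alternating sum of the cocycle identities at three commuting elements; trace form and
invariance of the forms of a cocycle.
-/

open scoped BigOperators

noncomputable section

namespace Pool.Agent.PST.H27

open Pool.Agent.PSS

theorem obb_3c {R K V A B κ Ω : Type} [CommRing R] [Field K] [Algebra R K] [CommGroup V]
    [Fintype V] [Ring A] [Algebra R A] [Ring B] [Algebra R B] [Algebra K B] [Fintype κ]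
    [Fintype Ω] [MulAction (V × V) Ω] (W : Subgroup V) {α : V →* A} {lam : A →ₗ[R] R}
    {x y : κ → A} {b : Ω → A} {c : Ω → (A →ₗ[R] R)} (C : KC R K B α lam x y b c)
    (cc : B →ₗ[K] B →ₗ[K] B) (hz : Z2 C W cc) (a a' a'' : A) (h1 : a * a' = a' * a)
    (h2 : a * a'' = a'' * a) (h3 : a' * a'' = a'' * a') :
    ∃ e : A, C.i e =
      (C.i a * (cc (C.i a') (C.i a'') - cc (C.i a'') (C.i a')) -
        (cc (C.i a') (C.i a'') - cc (C.i a'') (C.i a')) * C.i a) -
      (C.i a' * (cc (C.i a) (C.i a'') - cc (C.i a'') (C.i a)) -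
        (cc (C.i a) (C.i a'') - cc (C.i a'') (C.i a)) * C.i a') +
      (C.i a'' * (cc (C.i a) (C.i a') - cc (C.i a') (C.i a)) -
        (cc (C.i a) (C.i a') - cc (C.i a') (C.i a)) * C.i a'') := by
  obtain ⟨e1, g1⟩ := hz.cyc a a' a''
  obtain ⟨e2, g2⟩ := hz.cyc a a'' a'
  obtain ⟨e3, g3⟩ := hz.cyc a' a a''
  obtain ⟨e4, g4⟩ := hz.cyc a' a'' a
  obtain ⟨e5, g5⟩ := hz.cyc a'' a a'
  obtain ⟨e6, g6⟩ := hz.cyc a'' a' a
  have k1 : C.i a' * C.i a = C.i a * C.i a' := by rw [← map_mul, ← map_mul, h1]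
  have k2 : C.i a'' * C.i a = C.i a * C.i a'' := by rw [← map_mul, ← map_mul, h2]
  have k3 : C.i a'' * C.i a' = C.i a' * C.i a'' := by rw [← map_mul, ← map_mul, h3]
  refine ⟨e1 - e2 - e3 + e4 + e5 - e6, ?_⟩
  rw [map_sub, map_add, map_add, map_sub, map_sub, g1, g2, g3, g4, g5, g6]
  simp only [dl]
  rw [k1, k2, k3]
  noncomm_ring

theorem obb_zero {R K V A B κ Ω : Type} [CommRing R] [Field K] [Algebra R K] [CommGroup V]
    [Fintype V] [Ring A] [Algebra R A] [Ring B] [Algebra R B] [Algebra K B] [Fintype κ]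
    [Fintype Ω] [MulAction (V × V) Ω] {α : V →* A} {lam : A →ₗ[R] R}
    {x y : κ → A} {b : Ω → A} {c : Ω → (A →ₗ[R] R)} (C : KC R K B α lam x y b c)
    (P U s : B) (h : P * U = U * P) : C.lamK (P * (U * s - s * U)) = 0 := by
  have h1 : C.lamK (P * (U * s)) = C.lamK (P * (s * U)) := by
    rw [← mul_assoc, h, mul_assoc, C.rfK.sym, mul_assoc]
  rw [mul_sub, map_sub, h1, sub_self]

theorem obb_key {R K V A B κ Ω : Type} [CommRing R] [Field K] [Algebra R K] [CommGroup V]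
    [Fintype V] [Ring A] [Algebra R A] [Ring B] [Algebra R B] [Algebra K B] [Fintype κ]
    [Fintype Ω] [MulAction (V × V) Ω] (W : Subgroup V) {α : V →* A} {lam : A →ₗ[R] R}
    {x y : κ → A} {b : Ω → A} {c : Ω → (A →ₗ[R] R)} (C : KC R K B α lam x y b c)
    (cc : B →ₗ[K] B →ₗ[K] B) (hz : Z2 C W cc) (u v : V) (a p : A) (hu : a * α u = α u * a)
    (hv : a * α v = α v * a) (pu : p * α u = α u * p) (pv : p * α v = α v * p) :
    InR R (C.lamK (C.i p * (C.i a * (cc (C.i (α u)) (C.i (α v)) - cc (C.i (α v)) (C.i (α u))) -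
      (cc (C.i (α u)) (C.i (α v)) - cc (C.i (α v)) (C.i (α u))) * C.i a))) := by
  have huv : α u * α v = α v * α u := by rw [← map_mul, ← map_mul, mul_comm]
  obtain ⟨e, he⟩ := obb_3c W C cc hz (α u) (α v) a huv hu.symm hv.symm
  have ku : C.i p * C.i (α u) = C.i (α u) * C.i p := by rw [← map_mul, ← map_mul, pu]
  have kv : C.i p * C.i (α v) = C.i (α v) * C.i p := by rw [← map_mul, ← map_mul, pv]
  refine ⟨lam (p * e), ?_⟩
  rw [← C.lk, map_mul, he, mul_add, mul_sub, map_add, map_sub, obb_zero C _ _ _ ku,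
    obb_zero C _ _ _ kv, sub_zero, zero_add]

theorem obb : ObbStmt := by
  intro R K V A B κ Ω _ _ _ _ _ _ _ _ _ _ _ _ _ W α lam x y b c C cc hz
  have hq : ∀ (u v w : V), α (u * v)⁻¹ * α w = α w * α (u * v)⁻¹ := fun u v w => by
    rw [← map_mul, ← map_mul, mul_comm]
  constructor
  · intro z z' u v zu zv zu' zv'
    have pu : α (u * v)⁻¹ * z * α u = α u * (α (u * v)⁻¹ * z) := by
      rw [mul_assoc, zu, ← mul_assoc, hq, mul_assoc]
    have pv : α (u * v)⁻¹ * z * α v = α v * (α (u * v)⁻¹ * z) := by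
      rw [mul_assoc, zv, ← mul_assoc, hq, mul_assoc]
    obtain ⟨r, hr⟩ := obb_key W C cc hz u v z' (α (u * v)⁻¹ * z) zu' zv' pu pv
    refine ⟨r, hr.trans ?_⟩
    have hzq : z' * α (u * v)⁻¹ = α (u * v)⁻¹ * z' := by
      have h1 : z' * (α u * α v) = α u * α v * z' := by
        rw [← mul_assoc, zu', mul_assoc, zv', mul_assoc]
      have h2 : α (u * v)⁻¹ * (α u * α v) = 1 := by
        rw [← map_mul, ← map_mul, inv_mul_cancel, map_one]
      have h3 : (α u * α v) * α (u * v)⁻¹ = 1 := by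
        rw [← map_mul, ← map_mul, mul_inv_cancel, map_one]
      calc z' * α (u * v)⁻¹ = (α (u * v)⁻¹ * (α u * α v)) * z' * α (u * v)⁻¹ := by
            rw [h2, one_mul]
        _ = α (u * v)⁻¹ * (z' * (α u * α v)) * α (u * v)⁻¹ := by
            rw [h1, mul_assoc (α (u * v)⁻¹)]
        _ = α (u * v)⁻¹ * z' * ((α u * α v) * α (u * v)⁻¹) := by
            simp only [mul_assoc]
        _ = α (u * v)⁻¹ * z' := by rw [h3, mul_one]
    have kz : C.i z' * C.i (α (u * v)⁻¹) = C.i (α (u * v)⁻¹) * C.i z' := by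
      rw [← map_mul, ← map_mul, hzq]
    simp only [kp]
    set K0 := cc (C.i (α u)) (C.i (α v)) - cc (C.i (α v)) (C.i (α u)) with hK0
    have e1 : C.lamK (C.i (α (u * v)⁻¹ * z) * (C.i z' * K0)) =
        C.lamK (C.i (z * z') * (K0 * C.i (α (u * v)⁻¹))) := by
      rw [map_mul C.i, map_mul C.i, mul_assoc (C.i (α (u * v)⁻¹)),
        C.rfK.sym (C.i (α (u * v)⁻¹))]
      simp only [mul_assoc]
    have e2 : C.lamK (C.i (α (u * v)⁻¹ * z) * (K0 * C.i z')) =
        C.lamK (C.i (z' * z) * (K0 * C.i (α (u * v)⁻¹))) := by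
      rw [map_mul C.i, map_mul C.i, ← mul_assoc (C.i (α (u * v)⁻¹) * C.i z) K0 (C.i z'),
        C.rfK.sym _ (C.i z')]
      have h1 : C.i z' * (C.i (α (u * v)⁻¹) * C.i z * K0) =
          C.i (α (u * v)⁻¹) * (C.i z' * C.i z * K0) := by
        simp only [← mul_assoc]
        rw [kz]
      rw [h1, C.rfK.sym (C.i (α (u * v)⁻¹))]
      simp only [mul_assoc]
    rw [mul_sub, map_sub, e1, e2]
  · intro z u v t zu zv
    have ht : ∀ w : V, α t⁻¹ * α w = α w * α t⁻¹ := fun w => by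
      rw [← map_mul, ← map_mul, mul_comm]
    have pu : α (u * v)⁻¹ * z * α t⁻¹ * α u = α u * (α (u * v)⁻¹ * z * α t⁻¹) := by
      rw [mul_assoc, ht, ← mul_assoc, mul_assoc _ z, zu, ← mul_assoc, hq]
      simp only [mul_assoc]
    have pv : α (u * v)⁻¹ * z * α t⁻¹ * α v = α v * (α (u * v)⁻¹ * z * α t⁻¹) := by
      rw [mul_assoc, ht, ← mul_assoc, mul_assoc _ z, zv, ← mul_assoc, hq]
      simp only [mul_assoc]
    have htu : α t * α u = α u * α t := by rw [← map_mul, ← map_mul, mul_comm]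
    have htv : α t * α v = α v * α t := by rw [← map_mul, ← map_mul, mul_comm]
    obtain ⟨r, hr⟩ := obb_key W C cc hz u v (α t) (α (u * v)⁻¹ * z * α t⁻¹) htu htv pu pv
    refine ⟨-r, ?_⟩
    rw [map_neg, hr]
    simp only [kp]
    set K0 := cc (C.i (α u)) (C.i (α v)) - cc (C.i (α v)) (C.i (α u)) with hK0
    have ktq : C.i (α t) * C.i (α (u * v)⁻¹) = C.i (α (u * v)⁻¹) * C.i (α t) := by
      rw [← map_mul C.i, ← map_mul C.i, hq]
    have ktt : C.i (α t⁻¹) * C.i (α t) = 1 := by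
      rw [← map_mul C.i, ← map_mul α, inv_mul_cancel, map_one, map_one]
    have e1 : C.lamK (C.i (α (u * v)⁻¹ * z * α t⁻¹) * (C.i (α t) * K0)) =
        C.lamK (C.i z * (K0 * C.i (α (u * v)⁻¹))) := by
      have h1 : C.i (α (u * v)⁻¹ * z * α t⁻¹) * (C.i (α t) * K0) =
          C.i (α (u * v)⁻¹) * (C.i z * K0) := by
        rw [map_mul C.i, map_mul C.i, ← mul_assoc, mul_assoc _ (C.i (α t⁻¹)), ktt, mul_one,
          mul_assoc]
      rw [h1, C.rfK.sym, mul_assoc]
    have e2 : C.lamK (C.i (α (u * v)⁻¹ * z * α t⁻¹) * (K0 * C.i (α t))) =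
        C.lamK (C.i (α t * z * α t⁻¹) * (K0 * C.i (α (u * v)⁻¹))) := by
      have h1 : C.i (α (u * v)⁻¹ * z * α t⁻¹) * (K0 * C.i (α t)) =
          C.i (α (u * v)⁻¹) * (C.i z * C.i (α t⁻¹) * K0 * C.i (α t)) := by
        rw [map_mul C.i, map_mul C.i]
        simp only [mul_assoc]
      have h2 : C.i (α t * z * α t⁻¹) * (K0 * C.i (α (u * v)⁻¹)) =
          C.i (α t) * (C.i z * C.i (α t⁻¹) * K0 * C.i (α (u * v)⁻¹)) := by
        rw [map_mul C.i, map_mul C.i]
        simp only [mul_assoc]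
      rw [h1, h2, C.rfK.sym, C.rfK.sym (C.i (α t))]
      simp only [mul_assoc]
      rw [ktq]
    rw [mul_sub, map_sub, e1, e2]
    ring

end Pool.Agent.PST.H27
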