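import Pool.Agent.PST.StmtsGE

set_option autoImplicit false

/-!
# Squad PST, row RWT

Dual families over `W` from dual families over `V`: `V` is the disjoint union of the cosets of `W`.
-/

open scoped BigOperators

noncomputable section

namespace Pool.Agent.PST.H27

open Pool.Agent.PSS

theorem rwt_bij {V : Type} [CommGroup V] (W : Subgroup V) :
    Function.Bijective (fun p : (V ⧸ W) × W => p.1.out * (p.2 : V)) := by
  constructor
  · rintro ⟨q, u⟩ ⟨q', w⟩ h
    have h' : q.out * (u : V) = q'.out * (w : V) := h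
    have h1 : ((q.out * (u : V) : V) : V ⧸ W) = q := by
      rw [QuotientGroup.mk_mul_of_mem _ u.2]
      exact QuotientGroup.out_eq' q
    have h2 : ((q'.out * (w : V) : V) : V ⧸ W) = q' := by
      rw [QuotientGroup.mk_mul_of_mem _ w.2]
      exact QuotientGroup.out_eq' q'
    have h3 : q = q' := by rw [← h1, ← h2, h']
    subst h3
    have h4 : u = w := Subtype.ext (mul_left_cancel h')
    rw [h4]
  · intro v
    have h1 : ((((v : V ⧸ W).out : V)) : V ⧸ W) = (v : V ⧸ W) := QuotientGroup.out_eq' _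
    have h2 : ((v : V ⧸ W).out)⁻¹ * v ∈ W := QuotientGroup.eq.1 h1
    exact ⟨((v : V ⧸ W), ⟨_, h2⟩), mul_inv_cancel_left _ _⟩

theorem rwt_sum {V A : Type} [CommGroup V] [Fintype V] [AddCommMonoid A]
    (W : Subgroup V) [Fintype W] [Fintype (V ⧸ W)] (f : V → A) :
    ∑ q : V ⧸ W, ∑ w : W, f (q.out * (w : V)) = ∑ v, f v := by
  rw [← Fintype.sum_prod_type' (f := fun (q : V ⧸ W) (w : W) => f (q.out * (w : V)))]
  exact (rwt_bij W).sum_comp f

theorem rwt : RwtStmt := by
  intro k V A K _ _ _ _ _ _ W _ _ α lam x y hR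
  have e0 : ∀ (q w : V) (t : A), α w⁻¹ * (α q⁻¹ * t) = α (q * w)⁻¹ * t := by
    intro q w t
    rw [← mul_assoc, ← map_mul, mul_inv_rev]
  have e0' : ∀ (q w : V) (t : A), t * α q * α w = t * α (q * w) := by
    intro q w t
    rw [mul_assoc, ← map_mul]
  refine ⟨hR.sym, ?_, ?_⟩
  · intro a
    rw [Fintype.sum_prod_type]
    refine Eq.trans ?_ (hR.e1 a)
    refine Finset.sum_congr rfl ?_
    intro q _
    rw [← rwt_sum W (fun v => lam (α v⁻¹ * y q * a) • (x q * α v))]
    refine Finset.sum_congr rfl ?_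
    intro j _
    refine Finset.sum_congr rfl ?_
    intro w _
    show lam (α (w : V)⁻¹ * (α (j.out)⁻¹ * y q) * a) • (x q * α j.out * α (w : V)) = _
    rw [e0, e0']
  · intro a
    rw [Fintype.sum_prod_type]
    refine Eq.trans ?_ (hR.e2 a)
    refine Finset.sum_congr rfl ?_
    intro q _
    rw [← rwt_sum W (fun v => lam (a * (x q * α v)) • (α v⁻¹ * y q))]
    refine Finset.sum_congr rfl ?_
    intro j _
    refine Finset.sum_congr rfl ?_
    intro w _
    show lam (a * (x q * α j.out * α (w : V))) • (α (w : V)⁻¹ * (α (j.out)⁻¹ * y q)) = _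
    rw [e0, e0']

end Pool.Agent.PST.H27
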