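import Pool.Agent.PST.StmtsET2

set_option autoImplicit false

/-!
# Squad PST, row STE: the lifting step
-/

open scoped BigOperators TensorProduct

noncomputable section

namespace Pool.Agent.PST.ET.H27

open Pool.Agent.PFD.D2 (Cdv FibG)

section prj

variable {F V H : Type} [Field F] [CommGroup V] [Fintype V] [DecidableEq V] [Ring H] [Algebra F H]

/-- the projection as a linear map -/
def Pl (α : V →* H) (lam : H →ₗ[F] F) : H →ₗ[F] H :=
  ∑ u, (lam ∘ₗ LinearMap.mulLeft F (α u⁻¹)).smulRight (α u)

theorem Pl_apply (α : V →* H) (lam : H →ₗ[F] F) (a : H) : Pl α lam a = prj α lam a := by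
  simp [Pl, prj, LinearMap.sum_apply]

theorem Pl_of {α : V →* H} {lam : H →ₗ[F] F} (hP : Prj α lam) (w : V) :
    Pl α lam (α w) = α w := by
  rw [Pl_apply, prj, Finset.sum_eq_single w]
  · rw [← map_mul, inv_mul_cancel, hP.del, if_pos rfl, one_smul]
  · intro u _ hu
    rw [← map_mul, hP.del, if_neg, zero_smul]
    intro h
    exact hu (inv_mul_eq_one.1 h)
  · intro h
    exact absurd (Finset.mem_univ w) h

theorem Pl_left {α : V →* H} {lam : H →ₗ[F] F} (u : V) (a : H) :
    Pl α lam (α u * a) = α u * Pl α lam a := by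
  rw [Pl_apply, Pl_apply, prj, prj, Finset.mul_sum]
  refine (Fintype.sum_equiv (Equiv.mulLeft u) _ _ fun y => ?_).symm
  rw [Equiv.coe_mulLeft, mul_smul_comm, ← map_mul, ← mul_assoc, ← map_mul]
  congr 4
  rw [mul_inv_rev, inv_mul_cancel_right]

theorem Pl_right {α : V →* H} {lam : H →ₗ[F] F} (hP : Prj α lam) (w : V) (a : H) :
    Pl α lam (a * α w) = Pl α lam a * α w := by
  rw [Pl_apply, Pl_apply, prj, prj, Finset.sum_mul]
  refine (Fintype.sum_equiv (Equiv.mulRight w) _ _ fun y => ?_).symm
  rw [Equiv.coe_mulRight, smul_mul_assoc, ← map_mul, ← mul_assoc, ← hP.inv w, ← mul_assoc,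
    ← map_mul]
  congr 4
  rw [mul_inv_rev, mul_inv_cancel_left]

end prj

theorem ste (cob : CobStmt) (rli : RliStmt) (tor : TorStmt) : SteStmt := by
  classical
  intro R F V H Hs _ _ _ _ _ _ _ _ _ _ c f α lam hP hT n σ hn hσ hC
  have hqs : ∀ (r : R) (x : Hs), f.q (r • x) = c.κ r • f.q x := fun r x => by
    rw [Algebra.smul_def, map_mul, f.sc, Algebra.smul_def]
  have hκπ : c.κ c.π = 0 := (c.ker c.π).2 ⟨1, by ring⟩
  have hκπn : c.κ (c.π ^ n) = 0 := by
    rw [map_pow, hκπ, zero_pow (by omega)]
  choose s0 d0 h0 using hC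
  -- the corrected data
  let L : F → R := Function.surjInv c.surj
  have hL : ∀ x, c.κ (L x) = x := Function.surjInv_eq c.surj
  let k : V → V → V → F := fun u v w => lam (α w⁻¹ * f.q (d0 u v))
  let s : V → V → V → R := fun u v w => s0 u v w + c.π ^ n * L (k u v w)
  let d : V → V → Hs := fun u v => d0 u v - ∑ w, L (k u v w) • σ w
  have hs : ∀ u v, σ u * σ v = ∑ w, s u v w • σ w + c.π ^ n • d u v := by
    intro u v
    rw [h0 u v]
    simp only [s, d, add_smul, Finset.sum_add_distrib, smul_sub, Finset.smul_sum, mul_smul]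
    abel
  have hqd0 : ∀ u v, f.q (d u v) = f.q (d0 u v) - Pl α lam (f.q (d0 u v)) := by
    intro u v
    simp only [d, map_sub, map_sum, hqs, hL, hσ, Pl_apply, prj, k]
  have hPP : ∀ a, Pl α lam (Pl α lam a) = Pl α lam a := by
    intro a
    rw [Pl_apply α lam a, prj, map_sum]
    refine Finset.sum_congr rfl fun u _ => ?_
    rw [map_smul, Pl_of hP]
  have hqd : ∀ u v, Pl α lam (f.q (d u v)) = 0 := by
    intro u v
    rw [hqd0, map_sub, hPP, sub_self]
  have hκs : ∀ u v w, c.κ (s u v w) = if w = u * v then 1 else 0 := by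
    intro u v w
    have h1 : α (u * v) = ∑ x, c.κ (s u v x) • α x := by
      have h2 := congrArg f.q (hs u v)
      rw [map_mul, hσ, hσ, ← map_mul, map_add, map_sum, hqs, hκπn, zero_smul, add_zero] at h2
      rw [h2]
      exact Finset.sum_congr rfl fun x _ => by rw [hqs, hσ]
    have h3 := congrArg (fun a => lam (α w⁻¹ * a)) h1
    simp only [Finset.mul_sum, map_sum, mul_smul_comm, map_smul, ← map_mul, hP.del,
      smul_eq_mul] at h3
    rw [Finset.sum_eq_single w] at h3
    · rw [inv_mul_cancel, if_pos rfl, mul_one] at h3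
      rw [← h3]
      have h4 : (w⁻¹ * (u * v) = 1) ↔ (w = u * v) := inv_mul_eq_one
      simp only [h4]
    · intro x _ hx
      rw [if_neg, mul_zero]
      intro h
      exact hx (inv_mul_eq_one.1 h).symm
    · intro h
      exact absurd (Finset.mem_univ w) h
  have hsum : ∀ (u v : V) (g : V → H), ∑ x, c.κ (s u v x) • g x = g (u * v) := by
    intro u v g
    simp only [hκs, ite_smul, one_smul, zero_smul]
    rw [Finset.sum_ite_eq' Finset.univ (u * v)]
    simp
  -- the cocycle identity
  have hcyc : ∀ u v w, α u * f.q (d v w) - f.q (d (u * v) w) + f.q (d u (v * w)) -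
      f.q (d u v) * α w = 0 := by
    intro u v w
    let r : V → R := fun y => ∑ x, s v w x * s u x y - ∑ x, s u v x * s x w y
    let E : Hs := σ u * d v w + ∑ x, s v w x • d u x - d u v * σ w - ∑ x, s u v x • d x w
    have e1 : σ u * (σ v * σ w) = ∑ y, (∑ x, s v w x * s u x y) • σ y +
        c.π ^ n • (σ u * d v w + ∑ x, s v w x • d u x) := by
      rw [hs v w, mul_add, Finset.mul_sum]
      have e2 : ∀ x, σ u * s v w x • σ x = ∑ y, (s v w x * s u x y) • σ y +
          c.π ^ n • (s v w x • d u x) := by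
        intro x
        rw [mul_smul_comm, hs u x, smul_add, Finset.smul_sum]
        congr 1
        · exact Finset.sum_congr rfl fun y _ => (mul_smul _ _ _).symm
        · rw [smul_comm]
      simp only [e2, Finset.sum_add_distrib]
      rw [Finset.sum_comm, smul_add, mul_smul_comm, Finset.smul_sum]
      simp only [Finset.sum_smul]
      abel
    have e3 : σ u * σ v * σ w = ∑ y, (∑ x, s u v x * s x w y) • σ y +
        c.π ^ n • (d u v * σ w + ∑ x, s u v x • d x w) := by
      rw [hs u v, add_mul, Finset.sum_mul]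
      have e2 : ∀ x, s u v x • σ x * σ w = ∑ y, (s u v x * s x w y) • σ y +
          c.π ^ n • (s u v x • d x w) := by
        intro x
        rw [smul_mul_assoc, hs x w, smul_add, Finset.smul_sum]
        congr 1
        · exact Finset.sum_congr rfl fun y _ => (mul_smul _ _ _).symm
        · rw [smul_comm]
      simp only [e2, Finset.sum_add_distrib]
      rw [Finset.sum_comm, smul_add, smul_mul_assoc, Finset.smul_sum]
      simp only [Finset.sum_smul]
      abel
    have e4 : ∑ y, r y • σ y = c.π ^ n • (-E) := by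
      have h1 := mul_assoc (σ u) (σ v) (σ w)
      rw [e1, e3] at h1
      have h2 : ∑ y, r y • σ y = ∑ y, (∑ x, s v w x * s u x y) • σ y -
          ∑ y, (∑ x, s u v x * s x w y) • σ y := by
        simp only [r, sub_smul, Finset.sum_sub_distrib]
      rw [h2]
      simp only [E]
      rw [sub_eq_iff_eq_add]
      have h3 := eq_sub_of_add_eq h1.symm
      rw [h3]
      simp only [smul_neg, smul_sub, smul_add]
      abel
    obtain ⟨hr1, -, -⟩ := rli R F V H Hs c f α lam σ hP hσ
    have hr2 := hr1 n r (-E) e4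
    choose r' hr' using hr2
    have e5 : ∑ y, r' y • σ y + E = 0 := by
      refine (tor R F Hs c).1 n _ ?_
      rw [smul_add, Finset.smul_sum]
      have : ∑ y, c.π ^ n • r' y • σ y = ∑ y, r y • σ y :=
        Finset.sum_congr rfl fun y _ => by rw [hr' y, mul_smul]
      rw [this, e4, smul_neg, neg_add_cancel]
    have e6 := congrArg f.q e5
    have hqE : f.q E = α u * f.q (d v w) + f.q (d u (v * w)) - f.q (d u v) * α w -
        f.q (d (u * v) w) := by
      simp only [E, map_sub, map_add, map_mul, map_sum, hqs, hσ]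
      rw [hsum v w (fun x => f.q (d u x)), hsum u v (fun x => f.q (d x w))]
    have hPE : Pl α lam (f.q E) = 0 := by
      rw [hqE, map_sub, map_sub, map_add, Pl_left, Pl_right hP, hqd, hqd, hqd, hqd]
      simp
    rw [map_add, map_sum, map_zero] at e6
    have e7 := congrArg (Pl α lam) e6
    rw [map_add, hPE, add_zero, map_zero, map_sum] at e7
    have e8 : ∑ y, Pl α lam (f.q (r' y • σ y)) = ∑ y, f.q (r' y • σ y) :=
      Finset.sum_congr rfl fun y _ => by rw [hqs, hσ, map_smul, Pl_of hP]
    rw [e8] at e7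
    rw [e7, zero_add, hqE] at e6
    rw [← e6]
    abel
  obtain ⟨g, hg⟩ := cob F V H α lam hP hT (fun u v => f.q (d u v))
    (fun u v => by rw [← Pl_apply]; exact hqd u v) hcyc
  choose z hz using fun u => f.surj (-g u)
  refine ⟨z, fun u v => ?_⟩
  have e1 : f.q (d u v + z u * σ v + σ u * z v - ∑ w, s u v w • z w) = 0 := by
    simp only [map_sub, map_add, map_mul, map_sum, hqs, hσ, hz]
    rw [hsum u v (fun x => -g x), ← hg u v]
    noncomm_ring
  obtain ⟨e, he⟩ := f.ker _ e1
  refine ⟨s u v, e + c.π ^ (n - 1) • (z u * z v), ?_⟩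
  have hpow : c.π ^ (n + 1) * c.π ^ (n - 1) = c.π ^ n * c.π ^ n := by
    rw [← pow_add, ← pow_add]
    congr 1
    omega
  have e2 : (σ u + c.π ^ n • z u) * (σ v + c.π ^ n • z v) =
      σ u * σ v + c.π ^ n • (z u * σ v + σ u * z v) + (c.π ^ n * c.π ^ n) • (z u * z v) := by
    rw [add_mul, mul_add, mul_add, smul_mul_assoc, smul_mul_assoc, mul_smul_comm, mul_smul_comm,
      smul_add, mul_smul]
    abel
  have e3 : ∑ w, s u v w • (σ w + c.π ^ n • z w) =
      ∑ w, s u v w • σ w + c.π ^ n • ∑ w, s u v w • z w := by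
    rw [Finset.smul_sum, ← Finset.sum_add_distrib]
    refine Finset.sum_congr rfl fun w _ => ?_
    rw [smul_add, smul_comm]
  have e4 : c.π ^ n • (d u v + z u * σ v + σ u * z v - ∑ w, s u v w • z w) =
      c.π ^ (n + 1) • e := by
    rw [he, ← mul_smul, pow_succ]
  have e5 : c.π ^ n • (z u * σ v + σ u * z v) = c.π ^ (n + 1) • e - c.π ^ n • d u v +
      c.π ^ n • ∑ w, s u v w • z w := by
    rw [← e4]
    simp only [smul_sub, smul_add]
    abel
  rw [e2, e3, hs u v, e5, smul_add, ← mul_smul, hpow]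
  abel

end Pool.Agent.PST.ET.H27
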